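import Pool.Agent.Lib.MP_28303a_al.HIG.Iface

set_option autoImplicit false

namespace Pool.Agent.NegK.Hig.H57

open HNNExtension Pool.Agent.NegK.Hig

/-- It is enough to check the relations of an HNN extension on generators of `A`. -/
theorem rel_of_gen {G Q : Type} [Group G] [Group Q] {A B : Subgroup G} (φ : A ≃* B) (S : Set G)
    (hS : Subgroup.closure S = A) (j : G →* Q) (τ : Q)
    (h : ∀ x ∈ S, ∀ hx : x ∈ A, τ * j x = j ((φ ⟨x, hx⟩ : B) : G) * τ) :
    ∀ x (hx : x ∈ A), τ * j x = j ((φ ⟨x, hx⟩ : B) : G) * τ := by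
  intro x hx
  have hx' : x ∈ Subgroup.closure S := hS ▸ hx
  induction hx' using Subgroup.closure_induction with
  | mem x h1 => exact h x h1 hx
  | one =>
    have h1 : (⟨1, hx⟩ : A) = 1 := rfl
    rw [h1, map_one φ, OneMemClass.coe_one, map_one, mul_one, one_mul]
  | mul x y hx1 hy1 ihx ihy =>
    have hxA : x ∈ A := hS ▸ hx1
    have hyA : y ∈ A := hS ▸ hy1
    have h1 : (⟨x * y, hx⟩ : A) = ⟨x, hxA⟩ * ⟨y, hyA⟩ := rfl
    rw [h1, map_mul φ, Subgroup.coe_mul, map_mul, map_mul, ← mul_assoc,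
      ihx hxA, mul_assoc, ihy hyA, mul_assoc]
  | inv x hx1 ihx =>
    have hxA : x ∈ A := hS ▸ hx1
    have h1 : (⟨x⁻¹, hx⟩ : A) = (⟨x, hxA⟩ : A)⁻¹ := rfl
    rw [h1, map_inv φ, Subgroup.coe_inv, map_inv, map_inv]
    rw [eq_inv_mul_iff_mul_eq, ← mul_assoc, ← ihx hxA, mul_assoc, mul_inv_cancel, mul_one]

/-- Module FPH: an HNN extension of a finitely presented group with finitely generated associated
subgroup is finitely presented. -/
theorem fph : FphStatement := by
  intro G _ A B φ hG hA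
  obtain ⟨S, hS⟩ := hA
  let t' : Monoid.Coprod G (Multiplicative ℤ) := Monoid.Coprod.inr (Multiplicative.ofAdd 1)
  let f : Monoid.Coprod G (Multiplicative ℤ) →* HNNExtension G A B φ :=
    Monoid.Coprod.lift (of : G →* HNNExtension G A B φ) (zpowersHom _ t)
  have hft : f t' = t := by simp [f, t']
  have hfi : ∀ g : G, f (Monoid.Coprod.inl g) = of g := fun g => by simp [f]
  have hSA : ∀ x ∈ S, x ∈ A := fun x hx => hS ▸ Subgroup.subset_closure hx
  let R : Set (Monoid.Coprod G (Multiplicative ℤ)) :=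
    Set.range fun a : S => t' * Monoid.Coprod.inl (a : G) * t'⁻¹ *
      (Monoid.Coprod.inl ((φ ⟨a, hSA a a.2⟩ : B) : G))⁻¹
  have hsurj : Function.Surjective f := by
    intro x
    induction x using HNNExtension.induction_on with
    | of g => exact ⟨Monoid.Coprod.inl g, hfi g⟩
    | t => exact ⟨t', hft⟩
    | mul x y hx hy =>
      obtain ⟨a, rfl⟩ := hx
      obtain ⟨b, rfl⟩ := hy
      exact ⟨a * b, map_mul f a b⟩
    | inv x hx =>
      obtain ⟨a, rfl⟩ := hx
      exact ⟨a⁻¹, map_inv f a⟩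
  refine Group.IsFinitelyPresented.of_surjective f hsurj ⟨R, Set.finite_range _, ?_⟩
  refine le_antisymm ?_ ?_
  · refine Subgroup.normalClosure_le_normal ?_
    rintro _ ⟨a, rfl⟩
    rw [SetLike.mem_coe, MonoidHom.mem_ker]
    simp only [map_mul, map_inv, hft, hfi]
    rw [equiv_eq_conj]
    group
  · set N := Subgroup.normalClosure R with hN
    have hrel : ∀ x (hx : x ∈ A),
        (QuotientGroup.mk' N t') * ((QuotientGroup.mk' N).comp Monoid.Coprod.inl x) =
        ((QuotientGroup.mk' N).comp Monoid.Coprod.inl ((φ ⟨x, hx⟩ : B) : G)) *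
          (QuotientGroup.mk' N t') := by
      refine rel_of_gen φ (S : Set G) hS _ _ fun x hxS hx => ?_
      have h1 : QuotientGroup.mk' N (t' * Monoid.Coprod.inl x * t'⁻¹ *
          (Monoid.Coprod.inl ((φ ⟨x, hx⟩ : B) : G))⁻¹) = 1 := by
        rw [QuotientGroup.mk'_apply, QuotientGroup.eq_one_iff]
        exact Subgroup.subset_normalClosure ⟨⟨x, hxS⟩, rfl⟩
      rw [map_mul, map_mul, map_mul, map_inv, map_inv, mul_inv_eq_one,
        mul_inv_eq_iff_eq_mul] at h1
      exact h1
    let g : HNNExtension G A B φ →* (Monoid.Coprod G (Multiplicative ℤ)) ⧸ N :=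
      HNNExtension.lift ((QuotientGroup.mk' N).comp Monoid.Coprod.inl) (QuotientGroup.mk' N t')
        fun a => hrel a a.2
    have hgf : g.comp f = QuotientGroup.mk' N := by
      refine Monoid.Coprod.hom_ext ?_ ?_
      · ext x
        show g (f (Monoid.Coprod.inl x)) = _
        rw [hfi, HNNExtension.lift_of]
      · refine MonoidHom.ext_mint ?_
        show g (f t') = _
        rw [hft, HNNExtension.lift_t]
        rfl
    intro x hx
    rw [MonoidHom.mem_ker] at hx
    have h1 : QuotientGroup.mk' N x = 1 := by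
      rw [← hgf, MonoidHom.comp_apply, hx, map_one]
    rwa [QuotientGroup.mk'_apply, QuotientGroup.eq_one_iff] at h1

end Pool.Agent.NegK.Hig.H57
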