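import Pool.Agent.Lib.MP_28303a_al.HIG.Iface

set_option autoImplicit false

namespace Pool.Agent.NegK.Hig.H57

open HNNExtension Pool.Agent.NegK.Hig

section

variable {G : Type} [Group G] {A B : Subgroup G} (φ : A ≃* B) (H : Subgroup G)

/-- The restriction of `φ` to `H`. -/
def phiH (hc : ∀ a : A, (a : G) ∈ H ↔ (φ a : G) ∈ H) : A.subgroupOf H ≃* B.subgroupOf H where
  toFun a := ⟨⟨φ ⟨((a : H) : G), Subgroup.mem_subgroupOf.1 a.2⟩, (hc _).1 (a : H).2⟩,
    Subgroup.mem_subgroupOf.2 (φ _).2⟩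
  invFun b := ⟨⟨φ.symm ⟨((b : H) : G), Subgroup.mem_subgroupOf.1 b.2⟩,
    (hc _).2 (by rw [φ.apply_symm_apply]; exact (b : H).2)⟩,
    Subgroup.mem_subgroupOf.2 (φ.symm _).2⟩
  left_inv a := by
    apply Subtype.ext
    apply Subtype.ext
    simp
  right_inv b := by
    apply Subtype.ext
    apply Subtype.ext
    simp
  map_mul' a b := by
    apply Subtype.ext
    apply Subtype.ext
    have h1 : (⟨(((a * b : A.subgroupOf H) : H) : G), Subgroup.mem_subgroupOf.1 (a * b).2⟩ : A) =
      ⟨((a : H) : G), Subgroup.mem_subgroupOf.1 a.2⟩ *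
        ⟨((b : H) : G), Subgroup.mem_subgroupOf.1 b.2⟩ := rfl
    simp only [h1, map_mul]
    rfl

theorem phiH_coe (hc : ∀ a : A, (a : G) ∈ H ↔ (φ a : G) ∈ H) (a : A.subgroupOf H) :
    (((phiH φ H hc a : B.subgroupOf H) : H) : G) =
      φ ⟨((a : H) : G), Subgroup.mem_subgroupOf.1 a.2⟩ := rfl

theorem homH_rel (hc : ∀ a : A, (a : G) ∈ H ↔ (φ a : G) ∈ H) (a : A.subgroupOf H) :
    t * ((of : G →* HNNExtension G A B φ).comp H.subtype) (a : H) =
      ((of : G →* HNNExtension G A B φ).comp H.subtype) ((phiH φ H hc a : B.subgroupOf H) : H) *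
        t :=
  t_mul_of (φ := φ) ⟨((a : H) : G), Subgroup.mem_subgroupOf.1 a.2⟩

/-- The homomorphism from the HNN extension of `H`. -/
def homH (hc : ∀ a : A, (a : G) ∈ H ↔ (φ a : G) ∈ H) :
    HNNExtension H (A.subgroupOf H) (B.subgroupOf H) (phiH φ H hc) →* HNNExtension G A B φ :=
  HNNExtension.lift ((of : G →* HNNExtension G A B φ).comp H.subtype) t (homH_rel φ H hc)

theorem homH_of (hc : ∀ a : A, (a : G) ∈ H ↔ (φ a : G) ∈ H) (h : H) :
    homH φ H hc (of h) = of (h : G) := by
  unfold homH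
  rw [HNNExtension.lift_of]
  rfl

theorem homH_t (hc : ∀ a : A, (a : G) ∈ H ↔ (φ a : G) ∈ H) :
    homH φ H hc t = t := by
  unfold homH
  rw [HNNExtension.lift_t]

theorem mem_toSubgroup_subgroupOf (u : ℤˣ) (g : H) (hg : (g : G) ∈ toSubgroup A B u) :
    g ∈ toSubgroup (A.subgroupOf H) (B.subgroupOf H) u := by
  rcases Int.units_eq_one_or u with rfl | rfl
  · rw [toSubgroup_one] at hg ⊢
    exact Subgroup.mem_subgroupOf.2 hg
  · rw [toSubgroup_neg_one] at hg ⊢
    exact Subgroup.mem_subgroupOf.2 hg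

/-- The image of a reduced word. -/
def wordH (w : NormalWord.ReducedWord H (A.subgroupOf H) (B.subgroupOf H)) :
    NormalWord.ReducedWord G A B where
  head := (w.head : G)
  toList := w.toList.map fun x => (x.1, (x.2 : G))
  chain := by
    rw [List.isChain_map]
    refine w.chain.imp fun a b h1 h2 => ?_
    exact h1 (mem_toSubgroup_subgroupOf H a.1 a.2 h2)

theorem wordH_prod (hc : ∀ a : A, (a : G) ∈ H ↔ (φ a : G) ∈ H)
    (w : NormalWord.ReducedWord H (A.subgroupOf H) (B.subgroupOf H)) :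
    (wordH H w).prod φ = homH φ H hc (w.prod (phiH φ H hc)) := by
  unfold NormalWord.ReducedWord.prod
  rw [map_mul, homH_of, map_list_prod, List.map_map]
  congr 1
  show ((w.toList.map fun x => (x.1, (x.2 : G))).map _).prod = _
  rw [List.map_map]
  congr 1
  refine List.map_congr_left fun x _ => ?_
  rw [Function.comp_apply, Function.comp_apply, map_mul, map_zpow, homH_t, homH_of]

theorem exists_of (hc : ∀ a : A, (a : G) ∈ H ↔ (φ a : G) ∈ H)
    (y : HNNExtension H (A.subgroupOf H) (B.subgroupOf H) (phiH φ H hc))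
    (hy : homH φ H hc y ∈ (of : G →* HNNExtension G A B φ).range) : ∃ h : H, y = of h := by
  obtain ⟨d⟩ := NormalWord.TransversalPair.nonempty H (A.subgroupOf H) (B.subgroupOf H)
  have h1 : (NormalWord.equiv (phiH φ H hc) d y).prod (phiH φ H hc) = y :=
    (NormalWord.equiv (phiH φ H hc) d).symm_apply_apply y
  set w := NormalWord.equiv (phiH φ H hc) d y with hw
  have h2 := wordH_prod φ H hc w.toReducedWord
  rw [h1] at h2
  have h3 := ReducedWord.toList_eq_nil_of_mem_of_range φ (wordH H w.toReducedWord)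
    (by rw [h2]; exact hy)
  have h4 : w.toList = [] := List.map_eq_nil_iff.1 h3
  refine ⟨w.head, ?_⟩
  rw [← h1]
  unfold NormalWord.ReducedWord.prod
  rw [h4]
  simp

theorem homH_injective (hc : ∀ a : A, (a : G) ∈ H ↔ (φ a : G) ∈ H) :
    Function.Injective (homH φ H hc) := by
  rw [injective_iff_map_eq_one]
  intro y hy
  obtain ⟨h, rfl⟩ := exists_of φ H hc y (by rw [hy]; exact one_mem _)
  rw [homH_of] at hy
  have h1 : (h : G) = 1 := of_injective φ (hy.trans (map_one _).symm)
  have h2 : h = 1 := Subtype.ext h1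
  rw [h2, map_one]

theorem homH_range (hc : ∀ a : A, (a : G) ∈ H ↔ (φ a : G) ∈ H) :
    (homH φ H hc).range =
      Subgroup.closure ((of : G →* HNNExtension G A B φ) '' (H : Set G) ∪ {t}) := by
  refine le_antisymm ?_ ?_
  · rintro _ ⟨y, rfl⟩
    induction y using HNNExtension.induction_on with
    | of g =>
      rw [homH_of]
      exact Subgroup.subset_closure (Or.inl ⟨g, g.2, rfl⟩)
    | t =>
      rw [homH_t]
      exact Subgroup.subset_closure (Or.inr rfl)
    | mul x y hx hy =>
      rw [map_mul]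
      exact mul_mem hx hy
    | inv x hx =>
      rw [map_inv]
      exact inv_mem hx
  · rw [Subgroup.closure_le]
    rintro _ (⟨g, hg, rfl⟩ | rfl)
    · exact ⟨of ⟨g, hg⟩, homH_of φ H hc ⟨g, hg⟩⟩
    · exact ⟨t, homH_t φ H hc⟩

end

/-- Module HSUB: subgroups of HNN extensions. -/
theorem hsub : HsubStatement := by
  intro G _ A B φ H hc
  refine ⟨fun x hx => ?_, fun X _ f τ hf => ?_⟩
  · rw [← homH_range φ H hc] at hx
    obtain ⟨y, hy⟩ := hx
    obtain ⟨h, rfl⟩ := exists_of φ H hc y (by rw [hy]; exact ⟨x, rfl⟩)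
    rw [homH_of] at hy
    have h1 : (h : G) = x := of_injective φ hy
    rw [← h1]
    exact h.2
  · let L : HNNExtension H (A.subgroupOf H) (B.subgroupOf H) (phiH φ H hc) →* X :=
      HNNExtension.lift f τ fun a => hf ⟨((a : H) : G), Subgroup.mem_subgroupOf.1 a.2⟩
        (a : H).2 ((phiH φ H hc a : B.subgroupOf H) : H).2
    let e : HNNExtension H (A.subgroupOf H) (B.subgroupOf H) (phiH φ H hc) ≃*
        Subgroup.closure ((of : G →* HNNExtension G A B φ) '' (H : Set G) ∪ {t}) :=
      (MonoidHom.ofInjective (homH_injective φ H hc)).trans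
        (MulEquiv.subgroupCongr (homH_range φ H hc))
    have he : ∀ y, ((e y : Subgroup.closure ((of : G →* HNNExtension G A B φ) ''
        (H : Set G) ∪ {t})) : HNNExtension G A B φ) = homH φ H hc y := fun y => rfl
    refine ⟨L.comp e.symm.toMonoidHom, fun h hh => ?_, fun hh => ?_⟩
    · have h1 : e (of h) = ⟨of (h : G), hh⟩ := Subtype.ext ((he _).trans (homH_of φ H hc h))
      show L (e.symm ⟨of (h : G), hh⟩) = f h
      rw [← h1, e.symm_apply_apply]
      exact HNNExtension.lift_of _ _ _ _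
    · have h1 : e t = ⟨t, hh⟩ := Subtype.ext ((he _).trans (homH_t φ H hc))
      show L (e.symm ⟨t, hh⟩) = τ
      rw [← h1, e.symm_apply_apply]
      exact HNNExtension.lift_t _ _ _

end Pool.Agent.NegK.Hig.H57
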