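import Pool.Agent.Lib.MP_28303a_al.HIG.Iface
import Pool.Agent.Lib.MP_28303a_al.NK.Iface2

set_option autoImplicit false

namespace Pool.Agent.NegK.Hig.H57

open HNNExtension Pool.Agent.NegK Pool.Agent.NegK.Hig

theorem pIso_apply {C K : Type} [Group C] [Group K] {α β : C →* K}
    (hα : Function.Injective α) (hβ : Function.Injective β) (c : C) :
    ((pIso hα hβ ⟨α c, ⟨c, rfl⟩⟩ : β.range) : K) = β c := by
  have h1 : (MonoidHom.ofInjective hα) c = ⟨α c, ⟨c, rfl⟩⟩ := rfl
  unfold pIso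
  rw [MulEquiv.trans_apply, ← h1, MulEquiv.symm_apply_apply]
  rfl

theorem gen_eq {K : Type} [Group K] {G : Type} [Group G] (e : K →* G) (s : G)
    (H : Subgroup K) : gen e (fun _ : Unit => s) H = Subgroup.closure (e '' (H : Set K) ∪ {s}) := by
  unfold gen
  rw [Set.range_const]

/-- Module ONE: one stable letter. -/
theorem one (h1 : HsubStatement) (h2 : HnntfStatement) (h3 : FphStatement) : OneStatement := by
  intro C K _ _ α β hα hβ
  have hcomp : ∀ H : Subgroup K, (psys1 hα hβ).Compat H →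
      ∀ a : α.range, (a : K) ∈ H ↔ ((pIso hα hβ a : β.range) : K) ∈ H := by
    rintro H hH ⟨_, c, rfl⟩
    rw [pIso_apply hα hβ c]
    exact hH () c
  have hsub := fun (H : Subgroup K) (hH : (psys1 hα hβ).Compat H) =>
    h1 K α.range β.range (pIso hα hβ) H (hcomp H hH)
  refine ⟨of_injective _, fun i c => ?_, ?_, fun H hH x hx => ?_, fun H hH X _ f σ hf => ?_,
    fun hK => h2 K _ _ _ hK, fun hK hC => ?_⟩
  · have h := t_mul_of (φ := pIso hα hβ) ⟨α c, ⟨c, rfl⟩⟩
    rw [pIso_apply hα hβ c] at h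
    exact h
  · rw [eq_top_iff]
    intro x _
    induction x using HNNExtension.induction_on with
    | of g => exact gen_of _ _ (Subgroup.mem_top g)
    | t => exact gen_s (of : K →* Hnn hα hβ) (fun _ : Unit => (t : Hnn hα hβ)) ⊤ ()
    | mul x y hx hy => exact mul_mem (hx trivial) (hy trivial)
    | inv x hx => exact inv_mem (hx trivial)
  · rw [gen_eq] at hx
    exact (hsub H hH).1 x hx
  · obtain ⟨F, hF1, hF2⟩ := (hsub H hH).2 X f (σ ()) (by
      rintro ⟨_, c, rfl⟩ k1 k2
      have k3 : β c ∈ H := (hH () c).1 k1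
      have h4 : (⟨((pIso hα hβ ⟨α c, ⟨c, rfl⟩⟩ : β.range) : K), k2⟩ : H) = ⟨β c, k3⟩ :=
        Subtype.ext (pIso_apply hα hβ c)
      rw [h4]
      exact hf () c k1 k3)
    refine ⟨F.comp (MulEquiv.subgroupCongr (gen_eq _ _ H)).toMonoidHom, fun h => ?_, fun i => ?_⟩
    · exact hF1 h (Subgroup.subset_closure (Or.inl ⟨h, h.2, rfl⟩))
    · exact hF2 (Subgroup.subset_closure (Or.inr rfl))
  · have : Group.FG C := hC ()
    refine h3 K _ _ _ hK ?_
    rw [← Group.fg_iff_subgroup_fg]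
    infer_instance

end Pool.Agent.NegK.Hig.H57
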